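import Mathlib

/-!
Slicely countably determined sets: definitions.
-/

namespace Q88.SCD

section

variable {X : Type*} [NormedAddCommGroup X] [NormedSpace ℝ X]

/-- The slice `{x ∈ A : f x > sup f(A) - ε}` of `A`. -/
def slice (A : Set X) (f : X →L[ℝ] ℝ) (ε : ℝ) : Set X := {x | x ∈ A ∧ sSup (f '' A) - ε < f x}

/-- `S` is a slice of `A`. -/
def IsSliceOf (A S : Set X) : Prop := ∃ (f : X →L[ℝ] ℝ) (ε : ℝ), f ≠ 0 ∧ 0 < ε ∧ S = slice A f ε

/-- The sequence `V` of nonempty subsets of `A` is determining for `A`: every set meeting all `V n`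
has a closed convex hull containing `A`. -/
def IsDetermining (A : Set X) (V : ℕ → Set X) : Prop :=
  (∀ n, (V n).Nonempty ∧ V n ⊆ A) ∧
    ∀ B : Set X, (∀ n, (B ∩ V n).Nonempty) → A ⊆ closure (convexHull ℝ B)

/-- `A` is slicely countably determined: some sequence of slices of `A` is determining. -/
def IsSCD (A : Set X) : Prop := ∃ V : ℕ → Set X, (∀ n, IsSliceOf A (V n)) ∧ IsDetermining A V

/-- Every nonempty subset of `U` is slicely countably determined. -/
def HereditarilySCD (U : Set X) : Prop := ∀ A ⊆ U, A.Nonempty → IsSCD A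

end

end Q88.SCD
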