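import Pool.Agent.Q88.SCD.Sets
import Pool.Agent.Q88.SCD.Defs

/-!
Two hereditarily SCD sets whose Minkowski sum is not SCD.
-/

namespace Q88.SCD

open Filter Topology

open scoped ENNReal symmDiff Pointwise

/-- A countable set all of whose points are cut off by slices is hereditarily SCD. -/
theorem hereditarily_of_isolated {X : Type*} [NormedAddCommGroup X] [NormedSpace ℝ X]
    (u : ℕ → X) (R : ℝ) (hR : ∀ n, ‖u n‖ ≤ R) (f : ℕ → X →L[ℝ] ℝ) (δ : ℕ → ℝ) (hδ : ∀ n, 0 < δ n)
    (hf0 : ∀ n, f n ≠ 0) (hf : ∀ n m, m ≠ n → f n (u m) + δ n ≤ f n (u n)) :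
    HereditarilySCD (Set.range u) := by
  classical
  intro A hA hne
  obtain ⟨a0, ha0⟩ := hne
  obtain ⟨n0, rfl⟩ := hA ha0
  have hbdd : ∀ g : X →L[ℝ] ℝ, BddAbove (g '' A) := by
    intro g
    refine ⟨‖g‖ * R, ?_⟩
    rintro _ ⟨a, ha, rfl⟩
    obtain ⟨n, rfl⟩ := hA ha
    exact (le_abs_self _).trans ((g.le_opNorm _).trans
      (mul_le_mul_of_nonneg_left (hR n) (norm_nonneg _)))
  have key : ∀ n, u n ∈ A → slice A (f n) (δ n) = {u n} := by
    intro n hn
    have hsup : sSup (f n '' A) = f n (u n) := by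
      refine le_antisymm (csSup_le ⟨_, ⟨u n, hn, rfl⟩⟩ ?_) (le_csSup (hbdd _) ⟨u n, hn, rfl⟩)
      rintro _ ⟨a, ha, rfl⟩
      obtain ⟨m, rfl⟩ := hA ha
      by_cases h : m = n
      · rw [h]
      · linarith [hf n m h, hδ n]
    ext x
    constructor
    · rintro ⟨hx, hlt⟩
      obtain ⟨m, rfl⟩ := hA hx
      rw [hsup] at hlt
      by_cases h : m = n
      · rw [h]; rfl
      · exact absurd (hf n m h) (by linarith)
    · rintro rfl
      exact ⟨hn, by rw [hsup]; linarith [hδ n]⟩
  let g : ℕ → ℕ := fun n => if u n ∈ A then n else n0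
  have hg : ∀ n, u (g n) ∈ A := by
    intro n
    by_cases h : u n ∈ A
    · simp only [g, if_pos h]; exact h
    · simp only [g, if_neg h]; exact ha0
  refine ⟨fun n => slice A (f (g n)) (δ (g n)), fun n => ⟨f (g n), δ (g n), hf0 _, hδ _, rfl⟩, ?_, ?_⟩
  · intro n
    change (slice A (f (g n)) (δ (g n))).Nonempty ∧ slice A (f (g n)) (δ (g n)) ⊆ A
    rw [key _ (hg n)]
    exact ⟨⟨_, rfl⟩, by rintro _ rfl; exact hg n⟩
  · intro B hB a ha
    obtain ⟨n, rfl⟩ := hA ha
    obtain ⟨b, hb1, hb2⟩ := hB n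
    change b ∈ slice A (f (g n)) (δ (g n)) at hb2
    rw [key _ (hg n)] at hb2
    have hgn : g n = n := by simp only [g, if_pos ha]
    rw [hgn] at hb2
    rw [Set.mem_singleton_iff] at hb2
    subst hb2
    exact subset_closure (subset_convexHull ℝ B hb1)

/-- the space -/
abbrev XX : Type := Z × ℝ

section

variable (A : ℕ → Set Dl)

/-- the heights -/
noncomputable def ht (n : ℕ) : ℝ := (1 / 2) ^ (n + 1)

theorem ht_pos (n : ℕ) : 0 < ht n := by unfold ht; positivity

theorem ht_le (n : ℕ) : ht n ≤ 1 / 2 := by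
  unfold ht
  rw [pow_succ]
  have : ((1 : ℝ) / 2) ^ n ≤ 1 := pow_le_one₀ (by norm_num) (by norm_num)
  linarith

theorem ht_succ (n : ℕ) : ht (n + 1) = ht n / 2 := by unfold ht; rw [pow_succ]; ring

theorem ht_anti {m n : ℕ} (h : m ≤ n) : ht n ≤ ht m := by
  unfold ht
  exact pow_le_pow_of_le_one (by norm_num) (by norm_num) (by omega)

theorem ht_lim : Tendsto ht atTop (𝓝 0) :=
  (tendsto_pow_atTop_nhds_zero_of_lt_one (by norm_num) (by norm_num)).comp
    (tendsto_add_atTop_nat 1)

/-- the points, with sign `σ` of the heights -/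
noncomputable def pt (σ : ℝ) (n : ℕ) : XX := (chi (A n), σ * ht n)

/-- the points at which `A m` and `A n` differ -/
theorem exists_diff (hA : Function.Injective A) {m n : ℕ} (h : m ≠ n) :
    ∃ t, t ∈ A m ∆ A n := by
  by_contra hc
  push Not at hc
  refine h (hA ?_)
  exact Set.symmDiff_eq_empty.1 (Set.eq_empty_of_forall_notMem hc)

open Classical in
/-- the exposing functional -/
noncomputable def wf (t : ℕ → Dl) (n : ℕ) : Z →L[ℝ] ℝ :=
  ∑ m ∈ Finset.range n, (if t m ∈ A n then (1 : ℝ) else -1) • ev (t m)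

open Classical in
theorem wf_apply (t : ℕ → Dl) (n : ℕ) (B : Set Dl) : wf A t n (chi B) =
    ∑ m ∈ Finset.range n, (if t m ∈ A n then (1 : ℝ) else -1) * (if t m ∈ B then 1 else 0) := by
  unfold wf
  rw [_root_.sum_apply]
  refine Finset.sum_congr rfl (fun m _ => ?_)
  rw [_root_.smul_apply, ev_apply, chi_apply, smul_eq_mul]

theorem wf_le (t : ℕ → Dl) (n : ℕ) (B : Set Dl) : wf A t n (chi B) ≤ wf A t n (chi (A n)) := by
  classical
  rw [wf_apply, wf_apply]
  refine Finset.sum_le_sum (fun m _ => ?_)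
  split_ifs <;> norm_num

theorem wf_lt (t : ℕ → Dl) (n m : ℕ) (hmn : m < n) (ht : t m ∈ A m ∆ A n) :
    wf A t n (chi (A m)) + 1 ≤ wf A t n (chi (A n)) := by
  classical
  rw [wf_apply, wf_apply, ← Finset.add_sum_erase _ _ (Finset.mem_range.2 hmn),
    ← Finset.add_sum_erase (Finset.range n) _ (Finset.mem_range.2 hmn)]
  have h1 : ∑ x ∈ (Finset.range n).erase m,
      (if t x ∈ A n then (1 : ℝ) else -1) * (if t x ∈ A m then 1 else 0) ≤
      ∑ x ∈ (Finset.range n).erase m,
      (if t x ∈ A n then (1 : ℝ) else -1) * (if t x ∈ A n then 1 else 0) := by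
    refine Finset.sum_le_sum (fun x _ => ?_)
    split_ifs <;> norm_num
  have h2 : (if t m ∈ A n then (1 : ℝ) else -1) * (if t m ∈ A m then 1 else 0) + 1 ≤
      (if t m ∈ A n then (1 : ℝ) else -1) * (if t m ∈ A n then 1 else 0) := by
    rcases Set.mem_symmDiff.1 ht with ⟨h3, h4⟩ | ⟨h3, h4⟩
    · rw [if_neg h4, if_pos h3, if_neg h4]; norm_num
    · rw [if_pos h3, if_neg h4, if_pos h3]; norm_num
  linarith

theorem pt_norm (σ : ℝ) (hσ : |σ| = 1) (n : ℕ) : ‖pt A σ n‖ ≤ 1 := by
  refine norm_prod_le_iff.2 ⟨chi_norm_le _, ?_⟩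
  change ‖σ * ht n‖ ≤ 1
  rw [norm_mul, Real.norm_eq_abs, hσ, one_mul, Real.norm_eq_abs, abs_of_pos (ht_pos n)]
  linarith [ht_le n]

theorem hereditarily_pt (hA : Function.Injective A) (σ : ℝ) (hσ : |σ| = 1) :
    HereditarilySCD (Set.range (pt A σ)) := by
  have hσσ : σ * σ = 1 := by rw [← abs_mul_abs_self, hσ]; norm_num
  have h1 : ∀ m n, m ≠ n → ∃ t, t ∈ A m ∆ A n := fun m n h => exists_diff A hA h
  choose! t ht' using h1
  let f : ℕ → XX →L[ℝ] ℝ := fun n =>
    (wf A (fun m => t m n) n).comp (ContinuousLinearMap.fst ℝ Z ℝ) +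
      σ • ContinuousLinearMap.snd ℝ Z ℝ
  have hfp : ∀ n m, f n (pt A σ m) = wf A (fun m => t m n) n (chi (A m)) + ht m := by
    intro n m
    change wf A (fun m => t m n) n (chi (A m)) + σ * (σ * ht m) = _
    rw [← mul_assoc, hσσ, one_mul]
  refine hereditarily_of_isolated (pt A σ) 1 (pt_norm A σ hσ) f (fun n => ht (n + 1))
    (fun n => ht_pos _) ?_ ?_
  · intro n h0
    have : f n (0, σ) = 0 := by rw [h0]; rfl
    have h2 : f n (0, σ) = 1 := by
      change wf A (fun m => t m n) n 0 + σ * σ = 1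
      rw [map_zero, hσσ, zero_add]
    rw [this] at h2
    norm_num at h2
  · intro n m hmn
    rw [hfp, hfp]
    rcases lt_or_gt_of_ne hmn with h | h
    · have h2 := wf_lt A (fun m => t m n) n m h (ht' m n hmn)
      have h3 := ht_le m
      have h4 := ht_le (n + 1)
      have h5 := ht_pos n
      linarith
    · have h2 := wf_le A (fun m => t m n) n (A m)
      have h3 : ht m ≤ ht (n + 1) := ht_anti h
      have h4 := ht_succ n
      linarith

/-- nearly optimal sets avoiding a given point and with large index -/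
theorem exists_pick (hA : Function.Injective A) (hr : Set.range A = FD) (φ : Z →L[ℝ] ℝ) {s t : Dl}
    (hst : s ≠ t) (hgs : Good φ s) (hgt : Good φ t) (e : ℝ) {ε : ℝ} (hε : 0 < ε) :
    ∃ m, s ∉ A m ∧ e * ht m < ε ∧ ∀ m', φ (chi (A m')) < φ (chi (A m)) + ε := by
  classical
  have hbdd : BddAbove (Set.range (fun m => φ (chi (A m)))) := by
    refine ⟨‖φ‖, ?_⟩
    rintro _ ⟨m, rfl⟩
    exact (le_abs_self _).trans ((φ.le_opNorm _).trans
      ((mul_le_mul_of_nonneg_left (chi_norm_le _) (norm_nonneg _)).trans (mul_one _).le))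
  obtain ⟨m0, hm0⟩ : ∃ m0, ∀ m', φ (chi (A m')) < φ (chi (A m0)) + ε / 4 := by
    obtain ⟨_, ⟨m0, rfl⟩, h⟩ := exists_lt_of_lt_csSup (Set.range_nonempty _)
      (show sSup (Set.range (fun m => φ (chi (A m)))) - ε / 4 <
        sSup (Set.range (fun m => φ (chi (A m)))) by linarith)
    refine ⟨m0, fun m' => ?_⟩
    have : φ (chi (A m')) ≤ sSup (Set.range (fun m => φ (chi (A m)))) :=
      le_csSup hbdd ⟨m', rfl⟩
    simp only at h
    linarith
  obtain ⟨n1, hn1⟩ := hgs (ε / 8) (by positivity)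
  obtain ⟨n2, hn2⟩ := hgt (ε / 8) (by positivity)
  obtain ⟨n3, hn3⟩ := exists_sep hst
  set N := max n1 (max n2 n3) with hN
  have hN1 : n1 ≤ N := le_max_left _ _
  have hN2 : n2 ≤ N := (le_max_left _ _).trans (le_max_right _ _)
  have hN3 : n3 ≤ N := (le_max_right _ _).trans (le_max_right _ _)
  set A' : Set Dl := A m0 \ cyl s N with hA'
  have hA'FD : A' ∈ FD := FD.diff (hr ▸ ⟨m0, rfl⟩) (FD.cyl s N)
  have hmem : ∀ n, A' ∆ cyl t n ∈ Set.range A := fun n => by
    rw [hr]; exact FD.symmDiff hA'FD (FD.cyl t n)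
  choose g hg using hmem
  have hginj : Function.Injective g := by
    intro a b hab
    have : A' ∆ cyl t a = A' ∆ cyl t b := by rw [← hg a, ← hg b, hab]
    exact cyl_injective t (symmDiff_right_injective A' this)
  have hlim : Tendsto (fun n => e * Q88.SCD.ht (g n)) atTop (𝓝 0) := by
    have h1 : Tendsto g atTop atTop := by
      rw [← Nat.cofinite_eq_atTop]
      exact hginj.tendsto_cofinite
    have := (ht_lim.comp h1).const_mul e
    rw [mul_zero] at this
    exact this
  obtain ⟨n, hn, hnN⟩ := ((hlim.eventually_lt_const hε).and (eventually_ge_atTop N)).exists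
  refine ⟨g n, ?_, hn, fun m' => ?_⟩
  · rw [hg n, Set.mem_symmDiff]
    rintro (⟨h, -⟩ | ⟨h, -⟩)
    · exact h.2 (self_mem_cyl s N)
    · have h2 : s ∈ cyl t N := cyl_anti t hnN h
      exact Set.disjoint_left.1 (hn3 N hN3) (self_mem_cyl s N) h2
  · rw [hg n, chi_symmDiff, hA', chi_diff, map_add, map_sub, map_sub]
    have h1 := abs_le.1 (hn1 (A m0 ∩ cyl s N) (Set.inter_subset_right.trans (cyl_anti s hN1)))
    have h2 := abs_le.1 (hn2 ((A m0 \ cyl s N) ∩ cyl t n)
      (Set.inter_subset_right.trans (cyl_anti t (hN2.trans hnN))))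
    have h3 := abs_le.1 (hn2 (cyl t n \ (A m0 \ cyl s N))
      (Set.diff_subset.trans (cyl_anti t (hN2.trans hnN))))
    have h4 := hm0 m'
    linarith [h1.1, h1.2, h2.1, h2.2, h3.1, h3.2]

/-- The Minkowski sum is not SCD. -/
theorem not_scd (hA : Function.Injective A) (hr : Set.range A = FD) :
    ¬ IsSCD (Set.range (pt A 1) + Set.range (pt A (-1))) := by
  rintro ⟨V, hV, -, hdet⟩
  choose f ε hf0 hε hVf using hV
  let φ : ℕ → Z →L[ℝ] ℝ := fun k => (f k).comp (ContinuousLinearMap.inl ℝ Z ℝ)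
  let e : ℕ → ℝ := fun k => f k (0, 1)
  have hfk : ∀ k (z : Z) (r : ℝ), f k (z, r) = φ k z + e k * r := by
    intro k z r
    have : ((z, r) : XX) = (z, 0) + r • (0, 1) := by ext <;> simp
    rw [this, map_add, map_smul, smul_eq_mul, mul_comm]
    rfl
  obtain ⟨s, t, hst, hs, ht'⟩ := exists_good φ
  have hne : ∀ k, ∃ b, b ∈ V k ∧ ev s b.1 ≤ 1 := by
    intro k
    -- near optimal index for the free summand
    have hfree : ∀ σ : ℝ, |σ| = 1 → ∃ n, ∀ n', φ k (chi (A n')) + e k * (σ * ht n') <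
        φ k (chi (A n)) + e k * (σ * ht n) + ε k / 4 := by
      intro σ hσ
      have hbdd : BddAbove (Set.range (fun n => f k (pt A σ n))) := by
        refine ⟨‖f k‖, ?_⟩
        rintro _ ⟨m, rfl⟩
        exact (le_abs_self _).trans (((f k).le_opNorm _).trans
          ((mul_le_mul_of_nonneg_left (pt_norm A σ hσ _) (norm_nonneg _)).trans (mul_one _).le))
      obtain ⟨_, ⟨m0, rfl⟩, h⟩ := exists_lt_of_lt_csSup (Set.range_nonempty _)
        (show sSup (Set.range (fun n => f k (pt A σ n))) - ε k / 4 <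
          sSup (Set.range (fun n => f k (pt A σ n))) by linarith [hε k])
      refine ⟨m0, fun m' => ?_⟩
      have : f k (pt A σ m') ≤ sSup (Set.range (fun n => f k (pt A σ n))) :=
        le_csSup hbdd ⟨m', rfl⟩
      have e1 := hfk k (chi (A m')) (σ * ht m')
      have e2 := hfk k (chi (A m0)) (σ * ht m0)
      change f k (pt A σ m') = _ at e1
      change f k (pt A σ m0) = _ at e2
      simp only at h
      linarith
    have hind : ∀ (m : ℕ) (x : Dl), chi (A m) x ≤ 1 := by
      classical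
      intro m x
      rw [chi_apply]; split_ifs <;> norm_num
    -- the points of the sum
    have hS : ∀ n m : ℕ, (chi (A n) + chi (A m), ht n - ht m) ∈
        Set.range (pt A 1) + Set.range (pt A (-1)) := by
      intro n m
      refine Set.mem_add.2 ⟨_, ⟨n, rfl⟩, _, ⟨m, rfl⟩, ?_⟩
      ext1
      · rfl
      · change 1 * ht n + (-1) * ht m = ht n - ht m
        ring
    have hval : ∀ n m : ℕ, f k (chi (A n) + chi (A m), ht n - ht m) =
        (φ k (chi (A n)) + e k * ht n) + (φ k (chi (A m)) - e k * ht m) := by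
      intro n m
      rw [hfk, map_add]; ring
    have hslice : ∀ n m : ℕ, (∀ n' m' : ℕ,
        (φ k (chi (A n')) + e k * ht n') + (φ k (chi (A m')) - e k * ht m') ≤
        (φ k (chi (A n)) + e k * ht n) + (φ k (chi (A m)) - e k * ht m) + ε k * (3 / 4)) →
        (chi (A n) + chi (A m), ht n - ht m) ∈ V k := by
      intro n m h
      rw [hVf k]
      refine ⟨hS n m, ?_⟩
      have : sSup (f k '' (Set.range (pt A 1) + Set.range (pt A (-1)))) ≤
          f k (chi (A n) + chi (A m), ht n - ht m) + ε k * (3 / 4) := by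
        refine csSup_le ⟨_, ⟨_, hS 0 0, rfl⟩⟩ ?_
        rintro _ ⟨x, hx, rfl⟩
        obtain ⟨_, ⟨n', rfl⟩, _, ⟨m', rfl⟩, rfl⟩ := Set.mem_add.1 hx
        have h1 : f k (pt A 1 n' + pt A (-1) m') =
            (φ k (chi (A n')) + e k * ht n') + (φ k (chi (A m')) - e k * ht m') := by
          have e1 := hfk k (chi (A n')) (1 * ht n')
          have e2 := hfk k (chi (A m')) (-1 * ht m')
          change f k (pt A 1 n') = _ at e1
          change f k (pt A (-1) m') = _ at e2
          rw [map_add, e1, e2]; ring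
        rw [h1, hval]
        exact h n' m'
      linarith [hε k]
    rcases le_total 0 (e k) with he | he
    · -- the second summand is flexible
      obtain ⟨n, hn⟩ := hfree 1 (by simp)
      obtain ⟨m, hm1, hm2, hm3⟩ := exists_pick A hA hr (φ k) hst (hs k) (ht' k) (e k)
        (show 0 < ε k / 4 by linarith [hε k])
      refine ⟨_, hslice n m (fun n' m' => ?_), ?_⟩
      · have h1 := hn n'
        have h2 := hm3 m'
        have h3 : 0 ≤ e k * ht m' := mul_nonneg he (ht_pos m').le
        rw [one_mul, one_mul] at h1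
        linarith
      · rw [ev_apply]
        change chi (A n) s + chi (A m) s ≤ 1
        have h0 : chi (A m) s = 0 := by
          classical
          rw [chi_apply, if_neg hm1]
        rw [h0]
        linarith [hind n s]
    · -- the first summand is flexible
      obtain ⟨m, hm⟩ := hfree (-1) (by simp)
      obtain ⟨n, hn1, hn2, hn3⟩ := exists_pick A hA hr (φ k) hst (hs k) (ht' k) (-e k)
        (show 0 < ε k / 4 by linarith [hε k])
      refine ⟨_, hslice n m (fun n' m' => ?_), ?_⟩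
      · have h1 := hm m'
        have h2 := hn3 n'
        have h3 : 0 ≤ -e k * ht n' := mul_nonneg (by linarith) (ht_pos n').le
        linarith
      · rw [ev_apply]
        change chi (A n) s + chi (A m) s ≤ 1
        have h0 : chi (A n) s = 0 := by
          classical
          rw [chi_apply, if_neg hn1]
        rw [h0]
        linarith [hind m s]
  choose b hb1 hb2 using hne
  have h1 := hdet (Set.range b) (fun k => ⟨b k, ⟨k, rfl⟩, hb1 k⟩)
  have h2 : closure (convexHull ℝ (Set.range b)) ⊆ {x : XX | ev s x.1 ≤ 1} := by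
    refine closure_minimal (convexHull_min ?_ ?_) ?_
    · rintro _ ⟨k, rfl⟩
      exact hb2 k
    · exact convex_halfSpace_le ((ev s).comp (ContinuousLinearMap.fst ℝ Z ℝ)).isLinear 1
    · exact isClosed_le (((ev s).comp (ContinuousLinearMap.fst ℝ Z ℝ)).continuous)
        continuous_const
  obtain ⟨n, hn⟩ : Set.univ ∈ Set.range A := by rw [hr]; exact FD.univ
  have h3 : pt A 1 n + pt A (-1) n ∈ Set.range (pt A 1) + Set.range (pt A (-1)) :=
    Set.add_mem_add ⟨n, rfl⟩ ⟨n, rfl⟩
  have h4 := h2 (h1 h3)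
  have h5 : ev s (pt A 1 n + pt A (-1) n).1 = 2 := by
    classical
    rw [ev_apply]
    change chi (A n) s + chi (A n) s = 2
    rw [hn, chi_apply, if_pos (Set.mem_univ s)]
    norm_num
  have h6 : ev s (pt A 1 n + pt A (-1) n).1 ≤ 1 := h4
  rw [h5] at h6
  norm_num at h6

end

/-- There are a real Banach space and two bounded hereditarily SCD sets whose Minkowski sum is not
SCD. -/
theorem exists_sum_not_scd :
    ∃ (X : Type) (_ : NormedAddCommGroup X) (_ : NormedSpace ℝ X) (_ : CompleteSpace X)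
      (U₁ U₂ : Set X), U₁.Nonempty ∧ U₂.Nonempty ∧ Bornology.IsBounded U₁ ∧
        Bornology.IsBounded U₂ ∧ HereditarilySCD U₁ ∧ HereditarilySCD U₂ ∧ ¬ IsSCD (U₁ + U₂) := by
  obtain ⟨A, hA, hr⟩ := exists_enum
  have hb : ∀ σ : ℝ, |σ| = 1 → Bornology.IsBounded (Set.range (pt A σ)) := by
    intro σ hσ
    refine (isBounded_iff_forall_norm_le).2 ⟨1, ?_⟩
    rintro _ ⟨n, rfl⟩
    exact pt_norm A σ hσ n
  exact ⟨XX, inferInstance, inferInstance, inferInstance, Set.range (pt A 1),
    Set.range (pt A (-1)), Set.range_nonempty _, Set.range_nonempty _, hb 1 (by simp),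
    hb (-1) (by simp), hereditarily_pt A hA 1 (by simp), hereditarily_pt A hA (-1) (by simp),
    not_scd A hA hr⟩

end Q88.SCD
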