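import Pool.Agent.Q88.SCD.Defs

/-!
The relative weak topology, countable pi-bases, and closed convex hulls of isolated sets.
-/

namespace Q88.SCD

open Filter Topology

/-- A topological space has a countable pi-base: there is a countable family of nonempty open sets
such that every nonempty open set contains a member of the family. -/
def HasCountablePiBase (T : Type*) [TopologicalSpace T] : Prop :=
  ∃ P : Set (Set T), P.Countable ∧ (∀ V ∈ P, IsOpen V ∧ V.Nonempty) ∧
    ∀ W : Set T, IsOpen W → W.Nonempty → ∃ V ∈ P, V ⊆ W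

section

variable {X : Type*} [NormedAddCommGroup X] [NormedSpace ℝ X]

/-- The set `U`, as a subset of `X` with the weak topology. Its subspace topology is the relative
weak topology of `U`. -/
def weakSubset (U : Set X) : Set (WeakSpace ℝ X) := toWeakSpace ℝ X '' U

theorem toWeak_mem_weakSubset {U : Set X} {x : X} : toWeakSpace ℝ X x ∈ weakSubset U ↔ x ∈ U := by
  constructor
  · rintro ⟨y, hy, h⟩
    rwa [← (toWeakSpace ℝ X).injective h]
  · intro h
    exact ⟨x, h, rfl⟩

theorem weak_open_finite {O : Set (WeakSpace ℝ X)} (hO : IsOpen O) {p : X}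
    (hp : toWeakSpace ℝ X p ∈ O) :
    ∃ (I : Finset (X →L[ℝ] ℝ)) (δ : ℝ), 0 < δ ∧
      ∀ x : X, (∀ f ∈ I, |f x - f p| < δ) → toWeakSpace ℝ X x ∈ O := by
  obtain ⟨V, hV, hVO⟩ := isOpen_induced_iff.1 hO
  subst hVO
  obtain ⟨I, u, hu, hI⟩ := isOpen_pi_iff.1 hV _ hp
  have h1 : ∀ f ∈ I, ∃ δ : ℝ, 0 < δ ∧ ∀ r : ℝ, |r - f p| < δ → r ∈ u f := by
    intro f hf
    obtain ⟨δ, hδ, h⟩ := Metric.isOpen_iff.1 (hu f hf).1 (f p) (hu f hf).2
    exact ⟨δ, hδ, fun r hr => h hr⟩
  choose! d hd1 hd2 using h1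
  have h2 : ∃ δ : ℝ, 0 < δ ∧ ∀ f ∈ I, δ ≤ d f := by
    by_cases hI0 : I.Nonempty
    · refine ⟨I.inf' hI0 d, ?_, fun f hf => Finset.inf'_le _ hf⟩
      rw [Finset.lt_inf'_iff]
      exact hd1
    · refine ⟨1, one_pos, fun f hf => absurd ⟨f, hf⟩ hI0⟩
  obtain ⟨δ, hδ, hδd⟩ := h2
  refine ⟨I, δ, hδ, fun x hx => hI ?_⟩
  intro f hf
  exact hd2 f hf _ (lt_of_lt_of_le (hx f hf) (hδd f hf))

/-- The closed convex hull of a countable bounded set all of whose points are cut off by slices is
SCD. -/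
theorem scd_closure_convexHull {ι : Type*} [Countable ι] [Nonempty ι]
    (u : ι → X) (R : ℝ) (hR0 : 0 < R) (hR : ∀ n, ‖u n‖ ≤ R) (f : ι → X →L[ℝ] ℝ) (δ : ι → ℝ)
    (hδ : ∀ n, 0 < δ n) (hf0 : ∀ n, f n ≠ 0) (hf : ∀ n m, m ≠ n → f n (u m) + δ n ≤ f n (u n)) :
    IsSCD (closure (convexHull ℝ (Set.range u))) := by
  set U := closure (convexHull ℝ (Set.range u)) with hU
  have huU : ∀ n, u n ∈ U := fun n => subset_closure (subset_convexHull ℝ _ ⟨n, rfl⟩)
  have hkey : ∀ n, ∀ x ∈ U, ‖x - u n‖ + 2 * R / δ n * f n x ≤ 2 * R / δ n * f n (u n) := by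
    intro n
    have hc : 0 ≤ 2 * R / δ n := by have := hδ n; positivity
    have hconv : ConvexOn ℝ Set.univ (fun x : X => ‖x - u n‖ + 2 * R / δ n * f n x) := by
      refine ConvexOn.add ?_ ?_
      · have := (convexOn_norm (E := X) convex_univ).translate_left (-u n)
        simpa [Function.comp_def, sub_eq_add_neg, add_comm] using this
      · exact ((f n).toLinearMap.convexOn convex_univ).smul hc
    have hcont : Continuous (fun x : X => ‖x - u n‖ + 2 * R / δ n * f n x) := by fun_prop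
    have hsub : U ⊆ {x : X | ‖x - u n‖ + 2 * R / δ n * f n x ≤ 2 * R / δ n * f n (u n)} := by
      refine closure_minimal (convexHull_min ?_ ?_) (isClosed_le hcont continuous_const)
      · rintro _ ⟨m, rfl⟩
        by_cases h : m = n
        · subst h; simp
        · have h1 := hf n m h
          have h2 : ‖u m - u n‖ ≤ 2 * R := (norm_sub_le _ _).trans (by linarith [hR m, hR n])
          have h3 : 2 * R / δ n * δ n = 2 * R := by
            have := (hδ n).ne'
            field_simp
          have h4 : 2 * R / δ n * (f n (u m) + δ n) ≤ 2 * R / δ n * f n (u n) :=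
            mul_le_mul_of_nonneg_left h1 hc
          change ‖u m - u n‖ + 2 * R / δ n * f n (u m) ≤ _
          linarith
      · have := hconv.convex_le (2 * R / δ n * f n (u n))
        simpa using this
    exact fun x hx => hsub hx
  have hsup : ∀ n, sSup (f n '' U) = f n (u n) := by
    intro n
    have hle : ∀ x ∈ U, f n x ≤ f n (u n) := by
      intro x hx
      have h1 := hkey n x hx
      have h2 : 0 < 2 * R / δ n := by have := hδ n; positivity
      have h3 : 2 * R / δ n * f n x ≤ 2 * R / δ n * f n (u n) := by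
        linarith [norm_nonneg (x - u n)]
      exact le_of_mul_le_mul_left h3 h2
    refine le_antisymm (csSup_le ⟨_, ⟨u n, huU n, rfl⟩⟩ ?_)
      (le_csSup ⟨f n (u n), ?_⟩ ⟨u n, huU n, rfl⟩)
    · rintro _ ⟨x, hx, rfl⟩; exact hle x hx
    · rintro _ ⟨x, hx, rfl⟩; exact hle x hx
  obtain ⟨g, hg⟩ := exists_surjective_nat (ι × ℕ)
  refine ⟨fun k => slice U (f (g k).1) (1 / (((g k).2 : ℝ) + 1)),
    fun k => ⟨f (g k).1, 1 / (((g k).2 : ℝ) + 1), hf0 _, by positivity, rfl⟩, ?_, ?_⟩
  · intro k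
    refine ⟨⟨u (g k).1, huU _, ?_⟩, fun x hx => hx.1⟩
    rw [hsup]
    have : (0 : ℝ) < 1 / (((g k).2 : ℝ) + 1) := by positivity
    linarith
  · intro B hB
    have h1 : ∀ n, u n ∈ closure B := by
      intro n
      rw [Metric.mem_closure_iff]
      intro ε hε
      have hc : 0 < 2 * R / δ n := by have := hδ n; positivity
      obtain ⟨j, hj⟩ := exists_nat_one_div_lt (show 0 < ε / (2 * R / δ n) by positivity)
      obtain ⟨k, hk⟩ := hg (n, j)
      obtain ⟨b, hb1, hb2⟩ := hB k
      change b ∈ slice U (f (g k).1) (1 / (((g k).2 : ℝ) + 1)) at hb2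
      rw [hk] at hb2
      obtain ⟨hbU, hb3⟩ := hb2
      rw [hsup] at hb3
      simp only at hb3
      refine ⟨b, hb1, ?_⟩
      rw [dist_comm, dist_eq_norm]
      have h2 := hkey n b hbU
      have h3 : f n (u n) - f n b < ε / (2 * R / δ n) := by linarith
      have h4 : 2 * R / δ n * (f n (u n) - f n b) < 2 * R / δ n * (ε / (2 * R / δ n)) :=
        mul_lt_mul_of_pos_left h3 hc
      rw [mul_div_cancel₀ _ hc.ne'] at h4
      linarith
    refine closure_minimal (convexHull_min ?_ ?_) isClosed_closure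
    · rintro _ ⟨n, rfl⟩
      exact closure_mono (subset_convexHull ℝ B) (h1 n)
    · exact (convex_convexHull ℝ B).closure

end

end Q88.SCD
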