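import Pool.Agent.Q88.SCD.Main
import Pool.Agent.Q88.SCD.Weak

/-!
A closed convex bounded SCD set whose relative weak topology has no countable pi-base.
-/

namespace Q88.SCD

open Filter Topology

open scoped ENNReal symmDiff

theorem exists_good_set (S : Set (Z →L[ℝ] ℝ)) (hS : S.Countable) :
    ∃ s t : Dl, s ≠ t ∧ ∀ φ ∈ S, Good φ s ∧ Good φ t := by
  have h1 : (⋃ φ ∈ S, {t | ¬ Good φ t}).Countable := hS.biUnion (fun φ _ => countable_not_good φ)
  have key : ∀ C : Set Dl, C.Countable → ∃ t, t ∉ C := by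
    intro C hC
    by_contra h
    push Not at h
    exact uncountable_Dl (hC.mono (fun t _ => h t))
  obtain ⟨s, hs⟩ := key _ h1
  obtain ⟨t, ht⟩ := key _ (h1.insert s)
  simp only [Set.mem_iUnion, Set.mem_insert_iff, Set.mem_ofPred_eq, not_or, not_exists,
    not_not] at hs ht
  exact ⟨s, t, Ne.symm ht.1, fun φ hφ => ⟨hs φ hφ, ht.2 φ hφ⟩⟩

/-- the space -/
abbrev X3 : Type := Z × ℝ × ℝ

section

variable (A : ℕ → Set Dl)

/-- the points; `σ = 1` in the layer `0`, `σ = -1` in the layer `1` -/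
noncomputable def qt (σ : ℝ) (n : ℕ) : X3 := (chi (A n), σ * ht n, (1 - σ) / 2)

/-- the sign of a boolean -/
def bs (b : Bool) : ℝ := if b then 1 else -1

theorem bs_abs (b : Bool) : |bs b| = 1 := by cases b <;> simp [bs]

theorem bs_sq (b : Bool) : bs b * bs b = 1 := by cases b <;> simp [bs]

/-- the set of all points -/
noncomputable def TT (p : Bool × ℕ) : X3 := qt A (bs p.1) p.2

/-- the closed convex set -/
noncomputable def UU : Set X3 := closure (convexHull ℝ (Set.range (TT A)))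

theorem TT_norm (p : Bool × ℕ) : ‖TT A p‖ ≤ 1 := by
  refine norm_prod_le_iff.2 ⟨chi_norm_le _, norm_prod_le_iff.2 ⟨?_, ?_⟩⟩
  · change ‖bs p.1 * ht p.2‖ ≤ 1
    rw [norm_mul, Real.norm_eq_abs, bs_abs, one_mul, Real.norm_eq_abs, abs_of_pos (ht_pos _)]
    linarith [ht_le p.2]
  · change ‖(1 - bs p.1) / 2‖ ≤ 1
    cases h : p.1 <;> simp [bs]

theorem scd_UU (hA : Function.Injective A) : IsSCD (UU A) := by
  have h1 : ∀ m n, m ≠ n → ∃ t, t ∈ A m ∆ A n := fun m n h => exists_diff A hA h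
  choose! t ht' using h1
  let f : Bool × ℕ → X3 →L[ℝ] ℝ := fun p =>
    (wf A (fun m => t m p.2) p.2).comp (ContinuousLinearMap.fst ℝ Z (ℝ × ℝ)) +
      (bs p.1 • (ContinuousLinearMap.fst ℝ ℝ ℝ - ContinuousLinearMap.snd ℝ ℝ ℝ)).comp
        (ContinuousLinearMap.snd ℝ Z (ℝ × ℝ))
  have hfp : ∀ p q, f p (TT A q) = wf A (fun m => t m p.2) p.2 (chi (A q.2)) +
      bs p.1 * (bs q.1 * ht q.2 - (1 - bs q.1) / 2) := fun p q => rfl
  refine scd_closure_convexHull (TT A) 1 one_pos (TT_norm A) f (fun p => ht (p.2 + 1))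
    (fun p => ht_pos _) ?_ ?_
  · intro p h0
    have h2 : f p (0, 1, 0) = bs p.1 := by
      change wf A (fun m => t m p.2) p.2 0 + bs p.1 * (1 - 0) = bs p.1
      rw [map_zero]; ring
    rw [h0] at h2
    have h3 := bs_abs p.1
    rw [← h2] at h3
    simp at h3
  · rintro ⟨b, n⟩ ⟨c, m⟩ hne
    rw [hfp, hfp]
    simp only
    have hn1 := ht_le (n + 1)
    have hn2 := ht_succ n
    have hn3 := ht_pos n
    have hm1 := ht_le m
    have hm2 := ht_pos m
    have hw := wf_le A (fun m => t m n) n (A m)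
    by_cases hbc : c = b
    · subst hbc
      have hmn : m ≠ n := fun h => hne (by rw [h])
      have hsame : ∀ k, bs c * (bs c * ht k - (1 - bs c) / 2) = ht k - (bs c - 1) / 2 := by
        intro k
        have := bs_sq c
        have e : bs c * (bs c * ht k - (1 - bs c) / 2) =
          (bs c * bs c) * ht k - (bs c - bs c * bs c) / 2 := by ring
        rw [e, this]; ring
      rw [hsame, hsame]
      rcases lt_or_gt_of_ne hmn with h | h
      · have h2 := wf_lt A (fun m => t m n) n m h (ht' m n hmn)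
        linarith
      · have h3 : ht m ≤ ht (n + 1) := ht_anti h
        linarith
    · cases b <;> cases c <;> simp [bs] at hbc ⊢ <;> linarith

/-- The part of the main property that is stable under convex combinations: near `x`, with the
height removed, there are points vanishing at `s`. -/
def QQ (s : Dl) (I : Finset (X3 →L[ℝ] ℝ)) (C : Set X3) (x : X3) : Prop :=
  ∀ ε : ℝ, 0 < ε → ∃ y ∈ C, ev s y.1 = 0 ∧ ∀ f ∈ I, |f y - f (x.1, 0, x.2.2)| < ε

theorem convex_QQ (s : Dl) (I : Finset (X3 →L[ℝ] ℝ)) {C : Set X3} (hC : Convex ℝ C) :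
    Convex ℝ {x | QQ s I C x} := by
  intro x hx y hy a b ha hb hab ε hε
  obtain ⟨x', hx'C, hx's, hx'⟩ := hx ε hε
  obtain ⟨y', hy'C, hy's, hy'⟩ := hy ε hε
  refine ⟨a • x' + b • y', hC hx'C hy'C ha hb hab, ?_, fun f hf => ?_⟩
  · change ev s (a • x'.1 + b • y'.1) = 0
    rw [map_add, map_smul, map_smul, hx's, hy's]; simp
  · have e : f (a • x' + b • y') - f ((a • x + b • y).1, 0, (a • x + b • y).2.2) =
        a * (f x' - f (x.1, 0, x.2.2)) + b * (f y' - f (y.1, 0, y.2.2)) := by
      have : ((a • x + b • y).1, (0 : ℝ), (a • x + b • y).2.2) =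
          a • (x.1, (0 : ℝ), x.2.2) + b • (y.1, (0 : ℝ), y.2.2) := by
        ext1
        · rfl
        · ext1
          · simp
          · rfl
      rw [this, map_add, map_add, map_smul, map_smul, map_smul, map_smul]
      simp only [smul_eq_mul]; ring
    rw [e]
    calc |a * (f x' - f (x.1, 0, x.2.2)) + b * (f y' - f (y.1, 0, y.2.2))|
        ≤ a * |f x' - f (x.1, 0, x.2.2)| + b * |f y' - f (y.1, 0, y.2.2)| := by
          refine (abs_add_le _ _).trans ?_
          rw [abs_mul, abs_mul, abs_of_nonneg ha, abs_of_nonneg hb]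
      _ < ε := by
          have h1 := hx' f hf
          have h2 := hy' f hf
          rcases eq_or_lt_of_le ha with h0 | h0
          · have hb1 : b = 1 := by linarith
            rw [← h0, hb1]; linarith
          · nlinarith [mul_lt_mul_of_pos_left h1 h0, mul_le_mul_of_nonneg_left h2.le hb]

theorem QQ_point (hr : Set.range A = FD) {s t : Dl} (hst : s ≠ t)
    (I : Finset (X3 →L[ℝ] ℝ))
    (hgs : ∀ f ∈ I, Good (f.comp (ContinuousLinearMap.inl ℝ Z (ℝ × ℝ))) s)
    (hgt : ∀ f ∈ I, Good (f.comp (ContinuousLinearMap.inl ℝ Z (ℝ × ℝ))) t) (σ : ℝ) (n : ℕ) :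
    QQ s I (convexHull ℝ (Set.range (qt A σ))) (qt A σ n) := by
  classical
  intro ε hε
  -- a common level
  have h1 : ∀ f ∈ I, ∃ N, ∀ B, (B ⊆ cyl s N ∨ B ⊆ cyl t N) →
      |f.comp (ContinuousLinearMap.inl ℝ Z (ℝ × ℝ)) (chi B)| ≤ ε / 8 := by
    intro f hf
    obtain ⟨n1, hn1⟩ := hgs f hf (ε / 8) (by positivity)
    obtain ⟨n2, hn2⟩ := hgt f hf (ε / 8) (by positivity)
    refine ⟨max n1 n2, fun B hB => ?_⟩
    rcases hB with hB | hB
    · exact hn1 B (hB.trans (cyl_anti s (le_max_left _ _)))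
    · exact hn2 B (hB.trans (cyl_anti t (le_max_right _ _)))
  choose! g hg using h1
  obtain ⟨n3, hn3⟩ := exists_sep hst
  set N := max (I.sup g) n3 with hN
  have hN1 : ∀ f ∈ I, g f ≤ N := fun f hf => (Finset.le_sup hf).trans (le_max_left _ _)
  have hN3 : n3 ≤ N := le_max_right _ _
  set A' : Set Dl := A n \ cyl s N with hA'
  have hA'FD : A' ∈ FD := FD.diff (hr ▸ ⟨n, rfl⟩) (FD.cyl s N)
  have hmem : ∀ k, A' ∆ cyl t k ∈ Set.range A := fun k => by
    rw [hr]; exact FD.symmDiff hA'FD (FD.cyl t k)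
  choose k hk using hmem
  have hkinj : Function.Injective k := by
    intro a b hab
    have : A' ∆ cyl t a = A' ∆ cyl t b := by rw [← hk a, ← hk b, hab]
    exact cyl_injective t (symmDiff_right_injective A' this)
  have hklim : Tendsto k atTop atTop := by
    rw [← Nat.cofinite_eq_atTop]
    exact hkinj.tendsto_cofinite
  have hlim : ∀ᶠ j in atTop, ∀ f ∈ I, |f (0, σ * ht (k j), 0)| < ε / 8 := by
    rw [Filter.eventually_all_finset]
    intro f _
    have h2 : Tendsto (fun j => |f (0, σ * ht (k j), 0)|) atTop (𝓝 0) := by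
      have h3 : Tendsto (fun j => σ * ht (k j)) atTop (𝓝 0) := by
        have := (ht_lim.comp hklim).const_mul σ
        rw [mul_zero] at this
        exact this
      have h4 : Continuous (fun r : ℝ => |f ((0 : Z), r, (0 : ℝ))|) := by fun_prop
      have h5 := (h4.tendsto 0).comp h3
      have h6 : |f ((0 : Z), (0 : ℝ), (0 : ℝ))| = 0 := by
        have : ((0 : Z), (0 : ℝ), (0 : ℝ)) = 0 := rfl
        rw [this, map_zero, abs_zero]
      rw [h6] at h5
      exact h5
    exact h2.eventually_lt_const (by positivity)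
  obtain ⟨j, hj, hjN⟩ := (hlim.and (eventually_ge_atTop N)).exists
  refine ⟨qt A σ (k j), subset_convexHull ℝ _ ⟨k j, rfl⟩, ?_, fun f hf => ?_⟩
  · change chi (A (k j)) s = 0
    rw [chi_apply, if_neg]
    rw [hk j, Set.mem_symmDiff]
    rintro (⟨h, -⟩ | ⟨h, -⟩)
    · exact h.2 (self_mem_cyl s N)
    · have h2 : s ∈ cyl t N := cyl_anti t hjN h
      exact Set.disjoint_left.1 (hn3 N hN3) (self_mem_cyl s N) h2
  · set φ := f.comp (ContinuousLinearMap.inl ℝ Z (ℝ × ℝ)) with hφ
    have e : f (qt A σ (k j)) - f ((qt A σ n).1, 0, (qt A σ n).2.2) =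
        φ (chi (A (k j))) - φ (chi (A n)) + f (0, σ * ht (k j), 0) := by
      have e1 : qt A σ (k j) = (chi (A (k j)), 0, 0) + (0, σ * ht (k j), 0) +
          (0, 0, (1 - σ) / 2) := by
        unfold qt
        simp only [Prod.mk_add_mk, add_zero, zero_add]
      have e2 : ((qt A σ n).1, (0 : ℝ), (qt A σ n).2.2) = (chi (A n), (0 : ℝ), (0 : ℝ)) +
          (0, 0, (1 - σ) / 2) := by
        unfold qt
        simp only [Prod.mk_add_mk, add_zero, zero_add]
      rw [e1, e2, map_add, map_add, map_add]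
      have e3 : φ (chi (A (k j))) = f (chi (A (k j)), 0, 0) := rfl
      have e4 : φ (chi (A n)) = f (chi (A n), 0, 0) := rfl
      rw [e3, e4]; ring
    rw [e, hk j, chi_symmDiff, hA', chi_diff, map_add, map_sub, map_sub]
    have b1 := hg f hf (A n ∩ cyl s N)
      (Or.inl (Set.inter_subset_right.trans (cyl_anti s (hN1 f hf))))
    have b2 := hg f hf ((A n \ cyl s N) ∩ cyl t j)
      (Or.inr (Set.inter_subset_right.trans (cyl_anti t ((hN1 f hf).trans hjN))))
    have b3 := hg f hf (cyl t j \ (A n \ cyl s N))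
      (Or.inr (Set.sdiff_subset.trans (cyl_anti t ((hN1 f hf).trans hjN))))
    have b4 := hj f hf
    rw [abs_le] at b1 b2 b3
    rw [abs_lt] at b4 ⊢
    constructor <;> linarith [b1.1, b1.2, b2.1, b2.2, b3.1, b3.2, b4.1, b4.2]

end

end Q88.SCD
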