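import Pool.Agent.Q88.SCD.PiBase

/-!
A closed convex bounded SCD set whose relative weak topology has no countable pi-base: conclusion.
-/

namespace Q88.SCD

open Filter Topology

open scoped ENNReal symmDiff

theorem combine {s : Dl} {I : Finset (X3 →L[ℝ] ℝ)} {C : Set X3} (hC : Convex ℝ C) {a b : X3}
    (ha : QQ s I C a) (hb : QQ s I C b) (haC : a ∈ C) (hev : ev s a.1 ≤ 1) {c d : ℝ}
    (hc : 0 < c) (hd : 0 < d) (hcd : c + d = 1) (hh : c * a.2.1 ≠ 0)
    (h0 : 0 ≤ -(d * b.2.1) / (c * a.2.1)) (h1 : -(d * b.2.1) / (c * a.2.1) ≤ 1)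
    {ε : ℝ} (hε : 0 < ε) :
    ∃ x ∈ C, ev s x.1 ≤ c ∧ ∀ f ∈ I, |f x - f (c • a + d • b)| < ε := by
  set θ := -(d * b.2.1) / (c * a.2.1) with hθ
  obtain ⟨a', ha'C, ha's, ha'⟩ := ha ε hε
  obtain ⟨b', hb'C, hb's, hb'⟩ := hb ε hε
  refine ⟨c • ((1 - θ) • a + θ • a') + d • b', ?_, ?_, fun f hf => ?_⟩
  · exact hC (hC haC ha'C (by linarith) h0 (by ring)) hb'C hc.le hd.le hcd
  · change ev s (c • ((1 - θ) • a.1 + θ • a'.1) + d • b'.1) ≤ c
    rw [map_add, map_smul, map_add, map_smul, map_smul, map_smul, ha's, hb's]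
    simp only [smul_eq_mul, mul_zero, add_zero]
    have h2 : (1 - θ) * ev s a.1 ≤ 1 := by
      rcases le_total 0 (ev s a.1) with h | h
      · nlinarith
      · nlinarith
    nlinarith
  · have split : ∀ x : X3, f x = f (x.1, 0, x.2.2) + x.2.1 * f (0, 1, 0) := by
      intro x
      have : x = (x.1, 0, x.2.2) + x.2.1 • ((0 : Z), (1 : ℝ), (0 : ℝ)) := by
        ext1
        · simp
        · ext1 <;> simp
      conv_lhs => rw [this]
      rw [map_add, map_smul, smul_eq_mul]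
    have e : f (c • ((1 - θ) • a + θ • a') + d • b') - f (c • a + d • b) =
        c * θ * (f a' - f (a.1, 0, a.2.2)) + d * (f b' - f (b.1, 0, b.2.2)) := by
      rw [map_add, map_smul, map_add, map_smul, map_smul, map_smul, map_add, map_smul, map_smul,
        split a, split b]
      simp only [smul_eq_mul]
      have h3 : θ * (c * a.2.1) = -(d * b.2.1) := by
        rw [hθ, div_mul_cancel₀ _ hh]
      linear_combination (-f (0, 1, 0)) * h3
    rw [e]
    have h2 : c * θ ≤ c := by nlinarith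
    have h3 : 0 ≤ c * θ := mul_nonneg hc.le h0
    calc |c * θ * (f a' - f (a.1, 0, a.2.2)) + d * (f b' - f (b.1, 0, b.2.2))|
        ≤ c * θ * |f a' - f (a.1, 0, a.2.2)| + d * |f b' - f (b.1, 0, b.2.2)| := by
          refine (abs_add_le _ _).trans ?_
          rw [abs_mul (c * θ), abs_mul d, abs_of_nonneg h3, abs_of_nonneg hd.le]
      _ < ε := by
          have h4 := ha' f hf
          have h5 := hb' f hf
          nlinarith [mul_lt_mul_of_pos_left h5 hd, mul_le_mul_of_nonneg_left h4.le h3]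

section

variable (A : ℕ → Set Dl)

theorem range_TT : Set.range (TT A) = Set.range (qt A 1) ∪ Set.range (qt A (-1)) := by
  ext x
  constructor
  · rintro ⟨⟨b, n⟩, rfl⟩
    cases b
    · right; exact ⟨n, by simp [TT, bs]⟩
    · left; exact ⟨n, by simp [TT, bs]⟩
  · rintro (⟨n, rfl⟩ | ⟨n, rfl⟩)
    · exact ⟨(true, n), by simp [TT, bs]⟩
    · exact ⟨(false, n), by simp [TT, bs]⟩

theorem chi_le_one (B : Set Dl) (s : Dl) : chi B s ≤ 1 := by
  classical
  rw [chi_apply]; split_ifs <;> norm_num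

/-- elementary properties of the convex hull of one layer -/
theorem layer_props (σ : ℝ) (hσ : σ ≠ 0) (s : Dl) {a : X3}
    (ha : a ∈ convexHull ℝ (Set.range (qt A σ))) :
    0 < σ * a.2.1 ∧ a.2.2 = (1 - σ) / 2 ∧ ev s a.1 ≤ 1 := by
  have h1 : convexHull ℝ (Set.range (qt A σ)) ⊆ {x : X3 | 0 < σ * x.2.1} := by
    refine convexHull_min ?_ ?_
    · rintro _ ⟨n, rfl⟩
      change 0 < σ * (σ * ht n)
      rw [← mul_assoc]
      exact mul_pos (mul_self_pos.2 hσ) (ht_pos n)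
    · intro x hx y hy a b ha hb hab
      change 0 < σ * (a * x.2.1 + b * y.2.1)
      change 0 < σ * x.2.1 at hx
      change 0 < σ * y.2.1 at hy
      have e : σ * (a * x.2.1 + b * y.2.1) = a * (σ * x.2.1) + b * (σ * y.2.1) := by ring
      rw [e]
      rcases eq_or_lt_of_le ha with h | h
      · have : b = 1 := by linarith
        rw [← h, this]; linarith
      · have := mul_pos h hx
        have := mul_nonneg hb hy.le
        linarith
  have h2 : convexHull ℝ (Set.range (qt A σ)) ⊆ {x : X3 | x.2.2 = (1 - σ) / 2} := by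
    refine convexHull_min ?_ ?_
    · rintro _ ⟨n, rfl⟩; rfl
    · intro x hx y hy a b ha hb hab
      change a * x.2.2 + b * y.2.2 = (1 - σ) / 2
      change x.2.2 = (1 - σ) / 2 at hx
      change y.2.2 = (1 - σ) / 2 at hy
      rw [hx, hy, ← add_mul, hab, one_mul]
  have h3 : convexHull ℝ (Set.range (qt A σ)) ⊆ {x : X3 | ev s x.1 ≤ 1} := by
    refine convexHull_min ?_ ?_
    · rintro _ ⟨n, rfl⟩
      exact chi_le_one (A n) s
    · exact convex_halfSpace_le ((ev s).comp (ContinuousLinearMap.fst ℝ Z (ℝ × ℝ))).isLinear 1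
  exact ⟨h1 ha, h2 ha, h3 ha⟩

/-- Any point of the middle region can be moved weakly to a point with a small value at `s`. -/
theorem move (hr : Set.range A = FD) {s t : Dl} (hst : s ≠ t) (I : Finset (X3 →L[ℝ] ℝ))
    (hgs : ∀ f ∈ I, Good (f.comp (ContinuousLinearMap.inl ℝ Z (ℝ × ℝ))) s)
    (hgt : ∀ f ∈ I, Good (f.comp (ContinuousLinearMap.inl ℝ Z (ℝ × ℝ))) t) {p : X3}
    (hp : p ∈ convexHull ℝ (Set.range (TT A))) (hp1 : 1 / 3 < p.2.2) (hp2 : p.2.2 < 2 / 3)
    {ε : ℝ} (hε : 0 < ε) :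
    ∃ x ∈ convexHull ℝ (Set.range (TT A)), ev s x.1 ≤ 2 / 3 ∧ ∀ f ∈ I, |f x - f p| < ε := by
  set C := convexHull ℝ (Set.range (TT A)) with hC
  have hCc : Convex ℝ C := convex_convexHull ℝ _
  have hsub : ∀ σ : ℝ, σ = 1 ∨ σ = -1 → convexHull ℝ (Set.range (qt A σ)) ⊆ C := by
    intro σ hσ
    refine convexHull_mono ?_
    rw [range_TT]
    rcases hσ with rfl | rfl
    · exact Set.subset_union_left
    · exact Set.subset_union_right
  have hQ : ∀ σ : ℝ, σ = 1 ∨ σ = -1 → ∀ x ∈ convexHull ℝ (Set.range (qt A σ)), QQ s I C x := by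
    intro σ hσ x hx
    have : convexHull ℝ (Set.range (qt A σ)) ⊆ {x | QQ s I C x} := by
      refine convexHull_min ?_ (convex_QQ s I hCc)
      rintro _ ⟨n, rfl⟩
      intro ε hε
      obtain ⟨y, hy, h1, h2⟩ := QQ_point A hr hst I hgs hgt σ n ε hε
      exact ⟨y, hsub σ hσ hy, h1, h2⟩
    exact this hx
  have hp' := hp
  rw [hC, range_TT, convexHull_union (Set.range_nonempty _) (Set.range_nonempty _),
    mem_convexJoin] at hp'
  obtain ⟨a, ha, b, hb, c, d, hc, hd, hcd, rfl⟩ := hp'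
  obtain ⟨ha1, ha2, ha3⟩ := layer_props A 1 one_ne_zero s ha
  obtain ⟨hb1, hb2, hb3⟩ := layer_props A (-1) (by norm_num) s hb
  have hpd : (c • a + d • b).2.2 = d := by
    change c * a.2.2 + d * b.2.2 = d
    rw [ha2, hb2]; ring
  rw [hpd] at hp1 hp2
  have hc0 : 0 < c := by linarith
  have hd0 : 0 < d := by linarith
  have hα : 0 < c * a.2.1 := mul_pos hc0 (by linarith)
  have hβ : 0 < -(d * b.2.1) := by nlinarith
  rcases le_total (-(d * b.2.1)) (c * a.2.1) with h | h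
  · obtain ⟨x, hx1, hx2, hx3⟩ := combine hCc (hQ 1 (Or.inl rfl) a ha) (hQ (-1) (Or.inr rfl) b hb)
      (hsub 1 (Or.inl rfl) ha) ha3 hc0 hd0 hcd hα.ne' (div_nonneg hβ.le hα.le)
      ((div_le_one hα).2 h) hε
    exact ⟨x, hx1, by linarith, hx3⟩
  · have e : -(c * a.2.1) / (d * b.2.1) = (c * a.2.1) / (-(d * b.2.1)) := by
      rw [neg_div, div_neg]
    obtain ⟨x, hx1, hx2, hx3⟩ := combine hCc (hQ (-1) (Or.inr rfl) b hb) (hQ 1 (Or.inl rfl) a ha)
      (hsub (-1) (Or.inr rfl) hb) hb3 hd0 hc0 (by linarith) (by linarith : d * b.2.1 < 0).ne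
      (by rw [e]; exact div_nonneg hα.le hβ.le) (by rw [e]; exact (div_le_one hβ).2 h) hε
    refine ⟨x, hx1, by linarith, ?_⟩
    rw [add_comm (c • a)]
    exact hx3

theorem no_pi_base (hr : Set.range A = FD) :
    ¬ HasCountablePiBase (weakSubset (UU A)) := by
  classical
  rintro ⟨P, hPc, hP, hbase⟩
  set C := convexHull ℝ (Set.range (TT A)) with hC
  -- for each member of the family a point and finitely many functionals
  have h1 : ∀ V ∈ P, ∃ (p : X3) (I : Finset (X3 →L[ℝ] ℝ)) (δ : ℝ), p ∈ C ∧ 0 < δ ∧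
      (∃ hp : toWeakSpace ℝ X3 p ∈ weakSubset (UU A), (⟨_, hp⟩ : weakSubset (UU A)) ∈ V) ∧
      ∀ x : X3, (∀ f ∈ I, |f x - f p| < δ) → ∀ hx : toWeakSpace ℝ X3 x ∈ weakSubset (UU A),
        (⟨_, hx⟩ : weakSubset (UU A)) ∈ V := by
    intro V hV
    obtain ⟨hVo, ⟨⟨v, hv⟩, hvV⟩⟩ := hP V hV
    obtain ⟨O, hO, rfl⟩ := isOpen_induced_iff.1 hVo
    obtain ⟨y, hyU, rfl⟩ := hv
    have hyO : toWeakSpace ℝ X3 y ∈ O := hvV
    have hOn : IsOpen (toWeakSpace ℝ X3 ⁻¹' O) :=
      hO.preimage (toWeakSpaceCLM ℝ X3).continuous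
    obtain ⟨p, hpO, hpC⟩ := mem_closure_iff.1 hyU _ hOn hyO
    obtain ⟨I, δ, hδ, hI⟩ := weak_open_finite hO hpO
    refine ⟨p, I, δ, hpC, hδ, ⟨toWeak_mem_weakSubset.2 (subset_closure hpC), hpO⟩, ?_⟩
    intro x hx hxU
    exact hI x hx
  choose! p I δ hpC hδ hpV hIV using h1
  -- the functionals
  let S : Set (Z →L[ℝ] ℝ) := ⋃ V ∈ P, (fun f : X3 →L[ℝ] ℝ =>
    f.comp (ContinuousLinearMap.inl ℝ Z (ℝ × ℝ))) '' (I V : Set (X3 →L[ℝ] ℝ))
  have hS : S.Countable := hPc.biUnion (fun V _ => ((I V).countable_toSet).image _)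
  obtain ⟨s, t, hst, hgood⟩ := exists_good_set S hS
  have hIs : ∀ V ∈ P, ∀ f ∈ I V, Good (f.comp (ContinuousLinearMap.inl ℝ Z (ℝ × ℝ))) s ∧
      Good (f.comp (ContinuousLinearMap.inl ℝ Z (ℝ × ℝ))) t := by
    intro V hV f hf
    exact hgood _ (Set.mem_biUnion hV ⟨f, hf, rfl⟩)
  -- the open set
  have hcont : ∀ f : X3 →L[ℝ] ℝ,
      Continuous (fun z : WeakSpace ℝ X3 => f ((toWeakSpace ℝ X3).symm z)) :=
    fun f => WeakBilin.eval_continuous (topDualPairing ℝ X3).flip f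
  let f1 : X3 →L[ℝ] ℝ := (ev s).comp (ContinuousLinearMap.fst ℝ Z (ℝ × ℝ))
  let f2 : X3 →L[ℝ] ℝ := (ContinuousLinearMap.snd ℝ ℝ ℝ).comp
    (ContinuousLinearMap.snd ℝ Z (ℝ × ℝ))
  let W : Set (weakSubset (UU A)) := {w | 3 / 4 < f1 ((toWeakSpace ℝ X3).symm w) ∧
    1 / 3 < f2 ((toWeakSpace ℝ X3).symm w) ∧ f2 ((toWeakSpace ℝ X3).symm w) < 2 / 3}
  have hWo : IsOpen W :=
    (isOpen_lt continuous_const ((hcont f1).comp continuous_subtype_val)).inter
      ((isOpen_lt continuous_const ((hcont f2).comp continuous_subtype_val)).inter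
        (isOpen_lt ((hcont f2).comp continuous_subtype_val) continuous_const))
  have hWne : W.Nonempty := by
    obtain ⟨n, hn⟩ : Set.univ ∈ Set.range A := by rw [hr]; exact FD.univ
    have hx : (1 / 2 : ℝ) • qt A 1 n + (1 / 2 : ℝ) • qt A (-1) n ∈ C := by
      refine convex_convexHull ℝ _ (subset_convexHull ℝ _ ?_) (subset_convexHull ℝ _ ?_)
        (by norm_num) (by norm_num) (by norm_num)
      · rw [range_TT]; exact Or.inl ⟨n, rfl⟩
      · rw [range_TT]; exact Or.inr ⟨n, rfl⟩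
    refine ⟨⟨_, toWeak_mem_weakSubset.2 (subset_closure hx)⟩, ?_, ?_, ?_⟩
    · simp only [LinearEquiv.symm_apply_apply]
      change 3 / 4 < ev s ((1 / 2 : ℝ) • chi (A n) + (1 / 2 : ℝ) • chi (A n))
      rw [map_add, map_smul, ev_apply, hn, chi_apply, if_pos (Set.mem_univ s), smul_eq_mul]
      norm_num
    · simp only [LinearEquiv.symm_apply_apply]
      change 1 / 3 < (1 / 2 : ℝ) * ((1 - 1) / 2) + (1 / 2) * ((1 - (-1)) / 2)
      norm_num
    · simp only [LinearEquiv.symm_apply_apply]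
      change (1 / 2 : ℝ) * ((1 - 1) / 2) + (1 / 2) * ((1 - (-1)) / 2) < 2 / 3
      norm_num
  obtain ⟨V, hV, hVW⟩ := hbase W hWo hWne
  obtain ⟨hpU, hpV'⟩ := hpV V hV
  have hpW := hVW hpV'
  obtain ⟨-, hp1, hp2⟩ := hpW
  simp only [LinearEquiv.symm_apply_apply] at hp1 hp2
  obtain ⟨x, hxC, hx1, hx2⟩ := move A hr hst (I V) (fun f hf => (hIs V hV f hf).1)
    (fun f hf => (hIs V hV f hf).2) (hpC V hV) hp1 hp2 (hδ V hV)
  have hxU : toWeakSpace ℝ X3 x ∈ weakSubset (UU A) :=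
    toWeak_mem_weakSubset.2 (subset_closure hxC)
  have hxV := hIV V hV x hx2 hxU
  have hxW := hVW hxV
  obtain ⟨h3, -, -⟩ := hxW
  simp only [LinearEquiv.symm_apply_apply] at h3
  have h4 : f1 x = ev s x.1 := rfl
  rw [h4] at h3
  linarith

end

/-- There are a real Banach space and a closed convex bounded SCD set whose relative weak topology
has no countable pi-base. -/
theorem exists_scd_no_pi_base :
    ∃ (X : Type) (_ : NormedAddCommGroup X) (_ : NormedSpace ℝ X) (_ : CompleteSpace X)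
      (U : Set X), U.Nonempty ∧ IsClosed U ∧ Convex ℝ U ∧ Bornology.IsBounded U ∧ IsSCD U ∧
        ¬ HasCountablePiBase (weakSubset U) := by
  obtain ⟨A, hA, hr⟩ := exists_enum
  refine ⟨X3, inferInstance, inferInstance, inferInstance, UU A, ?_, isClosed_closure,
    (convex_convexHull ℝ _).closure, ?_, scd_UU A hA, no_pi_base A hr⟩
  · exact ⟨_, subset_closure (subset_convexHull ℝ _ ⟨(true, 0), rfl⟩)⟩
  · refine Bornology.IsBounded.closure ?_
    rw [isBounded_convexHull]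
    refine (isBounded_iff_forall_norm_le).2 ⟨1, ?_⟩
    rintro _ ⟨n, rfl⟩
    exact TT_norm A n

end Q88.SCD
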