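import Mathlib

/-!
Finitely determined subsets of the Cantor space, and bounded functionals on bounded functions.
-/

namespace Q88.SCD

open Filter Topology

open scoped ENNReal symmDiff

/-- the Cantor space, as a set of indices -/
abbrev Dl : Type := ℕ → Bool

/-- membership in `A` is determined by the first `n` coordinates -/
def Det (n : ℕ) (A : Set Dl) : Prop := ∀ x y : Dl, (∀ i < n, x i = y i) → x ∈ A → y ∈ A

/-- the cylinder of `t` -/
def cyl (t : Dl) (n : ℕ) : Set Dl := {x | ∀ i < n, x i = t i}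

theorem self_mem_cyl (t : Dl) (n : ℕ) : t ∈ cyl t n := fun _ _ => rfl

theorem cyl_anti (t : Dl) {m n : ℕ} (h : m ≤ n) : cyl t n ⊆ cyl t m :=
  fun _ hx i hi => hx i (lt_of_lt_of_le hi h)

theorem det_cyl (t : Dl) (n : ℕ) : Det n (cyl t n) := by
  intro x y h hx i hi
  rw [← h i hi, hx i hi]

theorem Det.mono {m n : ℕ} (h : m ≤ n) {A : Set Dl} (hA : Det m A) : Det n A :=
  fun x y hxy => hA x y (fun i hi => hxy i (lt_of_lt_of_le hi h))

theorem Det.compl {n : ℕ} {A : Set Dl} (hA : Det n A) : Det n Aᶜ :=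
  fun x y hxy hx hy => hx (hA y x (fun i hi => (hxy i hi).symm) hy)

theorem Det.inter {n : ℕ} {A B : Set Dl} (hA : Det n A) (hB : Det n B) : Det n (A ∩ B) :=
  fun x y hxy hx => ⟨hA x y hxy hx.1, hB x y hxy hx.2⟩

theorem Det.union {n : ℕ} {A B : Set Dl} (hA : Det n A) (hB : Det n B) : Det n (A ∪ B) :=
  fun x y hxy hx => hx.imp (hA x y hxy) (hB x y hxy)

theorem Det.diff {n : ℕ} {A B : Set Dl} (hA : Det n A) (hB : Det n B) : Det n (A \ B) :=
  hA.inter hB.compl

/-- the finitely determined sets -/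
def FD : Set (Set Dl) := {A | ∃ n, Det n A}

theorem FD.diff {A B : Set Dl} (hA : A ∈ FD) (hB : B ∈ FD) : A \ B ∈ FD := by
  obtain ⟨m, hm⟩ := hA
  obtain ⟨n, hn⟩ := hB
  exact ⟨max m n, (hm.mono (le_max_left _ _)).diff (hn.mono (le_max_right _ _))⟩

theorem FD.union {A B : Set Dl} (hA : A ∈ FD) (hB : B ∈ FD) : A ∪ B ∈ FD := by
  obtain ⟨m, hm⟩ := hA
  obtain ⟨n, hn⟩ := hB
  exact ⟨max m n, (hm.mono (le_max_left _ _)).union (hn.mono (le_max_right _ _))⟩

theorem FD.symmDiff {A B : Set Dl} (hA : A ∈ FD) (hB : B ∈ FD) : A ∆ B ∈ FD :=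
  FD.union (FD.diff hA hB) (FD.diff hB hA)

theorem FD.cyl (t : Dl) (n : ℕ) : cyl t n ∈ FD := ⟨n, det_cyl t n⟩

theorem FD.univ : Set.univ ∈ FD := ⟨0, fun _ _ _ _ => trivial⟩

theorem finite_det (n : ℕ) : {A : Set Dl | Det n A}.Finite := by
  classical
  let F : Set Dl → Set (Fin n → Bool) := fun A => {a | ∃ x ∈ A, ∀ i : Fin n, x i = a i}
  refine Set.Finite.of_finite_image (f := F) (Set.toFinite _) ?_
  intro A hA B hB h
  have key : ∀ A B : Set Dl, Det n B → F A ⊆ F B → A ⊆ B := by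
    intro A B hB hAB x hx
    obtain ⟨y, hy, hxy⟩ := hAB (show (fun i : Fin n => x i) ∈ F A from ⟨x, hx, fun i => rfl⟩)
    exact hB y x (fun i hi => hxy ⟨i, hi⟩) hy
  exact Set.Subset.antisymm (key A B hB h.subset) (key B A hA h.superset)

theorem countable_FD : FD.Countable := by
  have : FD = ⋃ n, {A : Set Dl | Det n A} := by ext; simp [FD]
  rw [this]
  exact Set.countable_iUnion (fun n => (finite_det n).countable)

theorem cyl_injective (t : Dl) : Function.Injective (cyl t) := by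
  have key : ∀ m n, m < n → cyl t m ≠ cyl t n := by
    intro m n hmn h
    have h1 : Function.update t m (!(t m)) ∈ cyl t m := by
      intro i hi
      rw [Function.update_of_ne hi.ne]
    rw [h] at h1
    have := h1 m hmn
    rw [Function.update_self] at this
    exact absurd this (by cases t m <;> simp)
  intro m n h
  rcases lt_trichotomy m n with h1 | h1 | h1
  · exact absurd h (key m n h1)
  · exact h1
  · exact absurd h.symm (key n m h1)

theorem infinite_FD : FD.Infinite :=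
  Set.infinite_of_injective_forall_mem (cyl_injective (fun _ => false)) (fun n => FD.cyl _ n)

/-- enumeration of the finitely determined sets -/
theorem exists_enum : ∃ A : ℕ → Set Dl, Function.Injective A ∧ Set.range A = FD := by
  haveI : Countable FD := countable_FD.to_subtype
  haveI : Infinite FD := infinite_FD.to_subtype
  obtain ⟨e⟩ := nonempty_equiv_of_countable (α := ℕ) (β := FD)
  refine ⟨fun n => e n, fun m n h => e.injective (Subtype.ext h), ?_⟩
  ext B
  constructor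
  · rintro ⟨n, rfl⟩; exact (e n).2
  · intro hB; exact ⟨e.symm ⟨B, hB⟩, by simp⟩

/-- distinct points have disjoint cylinders at high levels -/
theorem exists_sep {s t : Dl} (h : s ≠ t) : ∃ N, ∀ n, N ≤ n → Disjoint (cyl s n) (cyl t n) := by
  obtain ⟨i, hi⟩ := Function.ne_iff.1 h
  refine ⟨i + 1, fun n hn => Set.disjoint_left.2 (fun x hx hy => hi ?_)⟩
  rw [← hx i (by omega), hy i (by omega)]

theorem exists_sep_finset (F : Finset Dl) :
    ∃ N, ∀ s ∈ F, ∀ t ∈ F, s ≠ t → Disjoint (cyl s N) (cyl t N) := by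
  classical
  have : ∀ p ∈ F ×ˢ F, ∃ N, ∀ n, N ≤ n → p.1 ≠ p.2 → Disjoint (cyl p.1 n) (cyl p.2 n) := by
    intro p _
    by_cases h : p.1 = p.2
    · exact ⟨0, fun _ _ h' => absurd h h'⟩
    · obtain ⟨N, hN⟩ := exists_sep h
      exact ⟨N, fun n hn _ => hN n hn⟩
  choose! g hg using this
  refine ⟨(F ×ˢ F).sup g, fun s hs t ht hst => ?_⟩
  exact hg (s, t) (Finset.mk_mem_product hs ht) _
    (Finset.le_sup (f := g) (Finset.mk_mem_product hs ht)) hst

/-! ### bounded functions -/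

/-- the bounded functions on the Cantor space -/
abbrev Z : Type := lp (fun _ : Dl => ℝ) ∞

open Classical in
/-- characteristic functions -/
noncomputable def chi (A : Set Dl) : Z :=
  ⟨fun x => if x ∈ A then 1 else 0, memℓp_infty ⟨1, by
    rintro _ ⟨x, rfl⟩
    simp only
    split_ifs <;> simp⟩⟩

open Classical in
theorem chi_apply (A : Set Dl) (x : Dl) : chi A x = if x ∈ A then 1 else 0 := rfl

/-- evaluation -/
noncomputable def ev (t : Dl) : Z →L[ℝ] ℝ :=
  LinearMap.mkContinuous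
    { toFun := fun f => f t
      map_add' := fun f g => rfl
      map_smul' := fun c f => rfl } 1 (fun f => by
        rw [one_mul]
        exact lp.norm_apply_le_norm ENNReal.top_ne_zero f t)

theorem ev_apply (t : Dl) (f : Z) : ev t f = f t := rfl

theorem chi_norm_le (A : Set Dl) : ‖chi A‖ ≤ 1 := by
  classical
  refine lp.norm_le_of_forall_le zero_le_one (fun x => ?_)
  rw [chi_apply]
  split_ifs <;> simp

theorem chi_diff (A B : Set Dl) : chi (A \ B) = chi A - chi (A ∩ B) := by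
  classical
  ext x
  rw [lp.coeFn_sub, Pi.sub_apply, chi_apply, chi_apply, chi_apply]
  by_cases h1 : x ∈ A <;> by_cases h2 : x ∈ B <;> simp [h1, h2]

theorem chi_symmDiff (A B : Set Dl) : chi (A ∆ B) = chi A - chi (A ∩ B) + chi (B \ A) := by
  classical
  ext x
  rw [lp.coeFn_add, Pi.add_apply, lp.coeFn_sub, Pi.sub_apply, chi_apply, chi_apply, chi_apply,
    chi_apply]
  by_cases h1 : x ∈ A <;> by_cases h2 : x ∈ B <;> simp [h1, h2, Set.mem_symmDiff]

/-- signed sums of characteristic functions of disjoint sets -/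
theorem norm_sum_chi_le (F : Finset Dl) (D : Dl → Set Dl)
    (hD : ∀ s ∈ F, ∀ t ∈ F, s ≠ t → Disjoint (D s) (D t)) (σ : Dl → ℝ) (hσ : ∀ t, |σ t| ≤ 1) :
    ‖∑ t ∈ F, σ t • chi (D t)‖ ≤ 1 := by
  classical
  refine lp.norm_le_of_forall_le zero_le_one (fun x => ?_)
  rw [lp.coeFn_sum, Finset.sum_apply]
  have h0 : ∀ t, (σ t • chi (D t) : Z) x = if x ∈ D t then σ t else 0 := by
    intro t
    rw [lp.coeFn_smul, Pi.smul_apply, chi_apply, smul_eq_mul]
    split_ifs <;> simp
  simp_rw [h0]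
  by_cases hx : ∃ t ∈ F, x ∈ D t
  · obtain ⟨t, ht, hxt⟩ := hx
    rw [Finset.sum_eq_single_of_mem t ht, if_pos hxt]
    · exact hσ t
    · intro s hs hst
      rw [if_neg (fun hxs => Set.disjoint_left.1 (hD s hs t ht hst) hxs hxt)]
  · rw [Finset.sum_eq_zero]
    · simp
    · intro t ht
      rw [if_neg (fun h => hx ⟨t, ht, h⟩)]

/-- the points where the functional has an atom of size more than `ε` -/
def Bad (φ : Z →L[ℝ] ℝ) (ε : ℝ) : Set Dl := {t | ∀ n, ∃ B, B ⊆ cyl t n ∧ ε < |φ (chi B)|}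

theorem finite_Bad (φ : Z →L[ℝ] ℝ) {ε : ℝ} (hε : 0 < ε) : (Bad φ ε).Finite := by
  classical
  by_contra hinf
  obtain ⟨N, hN⟩ := exists_nat_gt (‖φ‖ / ε)
  obtain ⟨F, hF, hcard⟩ := Set.Infinite.exists_subset_card_eq hinf N
  obtain ⟨n, hn⟩ := exists_sep_finset F
  have h1 : ∀ t ∈ F, ∃ B, B ⊆ cyl t n ∧ ε < |φ (chi B)| := fun t ht => hF ht n
  choose! D hD1 hD2 using h1
  have h2 : ‖∑ t ∈ F, (SignType.sign (φ (chi (D t))) : ℝ) • chi (D t)‖ ≤ 1 := by
    refine norm_sum_chi_le F D (fun s hs t ht hst => ?_) _ (fun t => ?_)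
    · exact (hn s hs t ht hst).mono (hD1 s hs) (hD1 t ht)
    · rcases lt_trichotomy (φ (chi (D t))) 0 with h | h | h
      · simp [sign_neg h]
      · simp [h]
      · simp [sign_pos h]
  have h3 : ∑ t ∈ F, |φ (chi (D t))| ≤ ‖φ‖ := by
    have : ∑ t ∈ F, |φ (chi (D t))| =
        φ (∑ t ∈ F, (SignType.sign (φ (chi (D t))) : ℝ) • chi (D t)) := by
      rw [map_sum]
      refine Finset.sum_congr rfl (fun k _ => ?_)
      rw [map_smul, smul_eq_mul, sign_mul_self]
    rw [this]
    refine (le_abs_self _).trans ((φ.le_opNorm _).trans ?_)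
    exact (mul_le_mul_of_nonneg_left h2 (norm_nonneg _)).trans (mul_one _).le
  have h4 : (N : ℝ) * ε ≤ ∑ t ∈ F, |φ (chi (D t))| := by
    have := Finset.sum_le_sum (fun t ht => (hD2 t ht).le)
    rw [Finset.sum_const, hcard, nsmul_eq_mul] at this
    exact this
  have h5 : ‖φ‖ < N * ε := (div_lt_iff₀ hε).1 hN
  linarith

/-- no atom at `t` -/
def Good (φ : Z →L[ℝ] ℝ) (t : Dl) : Prop :=
  ∀ ε : ℝ, 0 < ε → ∃ n, ∀ B, B ⊆ cyl t n → |φ (chi B)| ≤ ε

theorem countable_not_good (φ : Z →L[ℝ] ℝ) : {t | ¬ Good φ t}.Countable := by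
  have : {t | ¬ Good φ t} ⊆ ⋃ j : ℕ, Bad φ (1 / ((j : ℝ) + 1)) := by
    intro t ht
    simp only [Good, Set.mem_setOf_eq, not_forall, not_exists, not_le] at ht
    obtain ⟨ε, hε, ht⟩ := ht
    obtain ⟨j, hj⟩ := exists_nat_one_div_lt hε
    refine Set.mem_iUnion.2 ⟨j, fun n => ?_⟩
    obtain ⟨B, hB, h⟩ := ht n
    exact ⟨B, hB, hj.trans h⟩
  refine Set.Countable.mono this (Set.countable_iUnion (fun j => ?_))
  exact (finite_Bad φ (by positivity)).countable

theorem uncountable_Dl : ¬ (Set.univ : Set Dl).Countable := by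
  intro h
  rw [Set.countable_univ_iff] at h
  obtain ⟨f, hf⟩ := exists_surjective_nat Dl
  obtain ⟨n, hn⟩ := hf (fun n => !(f n n))
  have := congrFun hn n
  simp at this

theorem exists_good (φ : ℕ → Z →L[ℝ] ℝ) :
    ∃ s t : Dl, s ≠ t ∧ (∀ k, Good (φ k) s) ∧ ∀ k, Good (φ k) t := by
  have h1 : (⋃ k, {t | ¬ Good (φ k) t}).Countable :=
    Set.countable_iUnion (fun k => countable_not_good (φ k))
  have key : ∀ C : Set Dl, C.Countable → ∃ t, t ∉ C := by
    intro C hC
    by_contra h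
    push Not at h
    exact uncountable_Dl (hC.mono (fun t _ => h t))
  obtain ⟨s, hs⟩ := key _ h1
  obtain ⟨t, ht⟩ := key _ (h1.insert s)
  simp only [Set.mem_iUnion, Set.mem_insert_iff, Set.mem_setOf_eq, not_or, not_exists,
    not_not] at hs ht
  exact ⟨s, t, Ne.symm ht.1, hs, ht.2⟩

end Q88.SCD
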